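import Mathlib

/-!
Definitions for expansions in non-integer bases: univoque bases of a number, its smallest univoque
base, the level sets of the smallest univoque base, de Vries-Komornik numbers.
-/

open Set Filter Topology

namespace Helper99.DVK

/-- The number with digit sequence `d` (digits `0` and `1`, `true` is the digit `1`, indices start
at `0`) in base `q`: `∑ d_i q^{-(i+1)}`. -/
noncomputable def val (q : ℝ) (d : ℕ → Bool) : ℝ := ∑' i, (if d i then (1 : ℝ) else 0) / q ^ (i + 1)

/-- `𝒰(x)`: the bases `q ∈ (1, min {2, 1 + 1/x}]` in which `x` has exactly one expansion with digits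
`0` and `1`. -/
def univoqueBases (x : ℝ) : Set ℝ := {q | 1 < q ∧ q ≤ min 2 (1 + 1 / x) ∧ ∃! d, val q d = x}

/-- `q_s(x)`: the smallest univoque base of `x` (infimum of `𝒰(x)`). -/
noncomputable def smallestBase (x : ℝ) : ℝ := sInf (univoqueBases x)

/-- `L(q)`: the numbers `x > 0` whose smallest univoque base is `q`. -/
def levelSet (q : ℝ) : Set ℝ := {x | 0 < x ∧ smallestBase x = q}

/-- De Vries-Komornik numbers: right endpoints `q ∈ 𝒰` of the components `(q₀, q)` of the complement
of the closure of `𝒰 = 𝒰(1)` with left endpoint `q₀ ∈ closure 𝒰 \ 𝒰`. -/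
def IsDeVriesKomornik (q : ℝ) : Prop :=
  q ∈ univoqueBases 1 ∧ ∃ q₀ ∈ closure (univoqueBases 1) \ univoqueBases 1, q₀ < q ∧
    Ioo q₀ q ∩ closure (univoqueBases 1) = ∅

/-- The accumulation points of a set of reals: every neighbourhood contains infinitely many points of
the set. -/
def accPts (A : Set ℝ) : Set ℝ := {y | ∀ U ∈ 𝓝 y, (U ∩ A).Infinite}

end Helper99.DVK
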