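import Mathlib
import Pool.Agent.Helper99.DVK.Defs

open Set Filter Topology

namespace Helper99.DVK

variable {p q : ℝ} {d e s u α : ℕ → Bool}

/-- shift -/
def sh (n : ℕ) (d : ℕ → Bool) : ℕ → Bool := fun i => d (n + i)

/-- complement -/
def co (d : ℕ → Bool) : ℕ → Bool := fun i => !d i

/-- first `n` digits of `u`, followed by `s` -/
def pre (u : ℕ → Bool) (n : ℕ) (s : ℕ → Bool) : ℕ → Bool := fun i => if i < n then u i else s (i - n)

@[simp] lemma co_co : co (co d) = d := by funext i; simp [co]
@[simp] lemma sh_zero : sh 0 d = d := by funext i; simp [sh]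
lemma sh_sh (m n : ℕ) : sh m (sh n d) = sh (n + m) d := by funext i; simp [sh, Nat.add_assoc]
lemma co_sh (n : ℕ) : co (sh n d) = sh n (co d) := rfl
lemma sh_pre (n : ℕ) : sh n (pre u n s) = s := by
  funext i; simp [sh, pre]
lemma pre_lt {n i : ℕ} (h : i < n) : pre u n s i = u i := by simp [pre, h]
lemma pre_ge {n i : ℕ} (h : n ≤ i) : pre u n s i = s (i - n) := by simp [pre, Nat.not_lt.2 h]
lemma pre_self (n : ℕ) : pre u n (sh n u) = u := by
  funext i
  by_cases h : i < n
  · simp [pre, h]
  · simp [pre, h, sh, Nat.add_sub_of_le (Nat.not_lt.1 h)]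

/-- the real digit -/
noncomputable def dig (b : Bool) : ℝ := if b then 1 else 0

lemma dig_nonneg (b : Bool) : 0 ≤ dig b := by unfold dig; split_ifs <;> norm_num
lemma dig_le (b : Bool) : dig b ≤ 1 := by unfold dig; split_ifs <;> norm_num
@[simp] lemma dig_true : dig true = 1 := rfl
@[simp] lemma dig_false : dig false = 0 := rfl
lemma dig_not (b : Bool) : dig (!b) = 1 - dig b := by cases b <;> simp

lemma hasSum_ones (hq : 1 < q) : HasSum (fun i : ℕ => (1 : ℝ) / q ^ (i + 1)) (1 / (q - 1)) := by
  have h0 : 0 < q := by linarith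
  have h := (hasSum_geometric_of_lt_one (r := q⁻¹) (by positivity)
    (inv_lt_one_of_one_lt₀ hq)).mul_left q⁻¹
  have e1 : q⁻¹ * (1 - q⁻¹)⁻¹ = 1 / (q - 1) := by
    have : q - 1 ≠ 0 := by linarith
    have h2 : 1 - q⁻¹ ≠ 0 := by
      intro h; have := inv_lt_one_of_one_lt₀ hq; linarith
    field_simp
  rw [e1] at h
  have e2 : (fun i : ℕ => (1 : ℝ) / q ^ (i + 1)) = fun i => q⁻¹ * q⁻¹ ^ i := by
    funext i; rw [pow_succ, inv_pow]; field_simp
  rw [e2]; exact h

lemma summable_val (hq : 1 < q) (d : ℕ → Bool) :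
    Summable (fun i => (if d i then (1 : ℝ) else 0) / q ^ (i + 1)) := by
  have h0 : 0 < q := by linarith
  refine Summable.of_nonneg_of_le (fun i => ?_) (fun i => ?_) (hasSum_ones hq).summable
  · split_ifs <;> positivity
  · gcongr; split_ifs <;> norm_num

lemma hasSum_val (hq : 1 < q) (d : ℕ → Bool) :
    HasSum (fun i => dig (d i) / q ^ (i + 1)) (val q d) := (summable_val hq d).hasSum

lemma val_nonneg (hq : 1 < q) (d : ℕ → Bool) : 0 ≤ val q d := by
  have h0 : 0 < q := by linarith
  exact tsum_nonneg fun i => by split_ifs <;> positivity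

lemma val_co (hq : 1 < q) (d : ℕ → Bool) : val q (co d) = 1 / (q - 1) - val q d := by
  have h := (hasSum_ones hq).sub (hasSum_val hq d)
  have h2 := hasSum_val hq (co d)
  refine h2.unique ?_
  have e2 : (fun i : ℕ => dig (co d i) / q ^ (i + 1))
      = fun i => 1 / q ^ (i + 1) - dig (d i) / q ^ (i + 1) := by
    funext i; simp only [co, dig_not]; ring
  rw [e2]; exact h

lemma val_le (hq : 1 < q) (d : ℕ → Bool) : val q d ≤ 1 / (q - 1) := by
  have := val_nonneg hq (co d); rw [val_co hq] at this; linarith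

lemma val_step (hq : 1 < q) (d : ℕ → Bool) : val q d = (dig (d 0) + val q (sh 1 d)) / q := by
  have h0 : 0 < q := by linarith
  have h := (hasSum_val hq d)
  rw [← hasSum_nat_add_iff' 1] at h
  have h2 := (hasSum_val hq (sh 1 d)).mul_left q⁻¹
  have e2 : (fun i : ℕ => dig (d (i + 1)) / q ^ (i + 1 + 1))
      = fun i => q⁻¹ * (dig (sh 1 d i) / q ^ (i + 1)) := by
    funext i
    simp only [sh, Nat.add_comm 1 i]
    rw [pow_succ q (i + 1)]; field_simp
  rw [e2] at h
  have h3 := h.unique h2
  rw [Finset.sum_range_one] at h3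
  simp only [zero_add, pow_one] at h3
  field_simp
  field_simp at h3
  linarith

lemma val_sh (hq : 1 < q) (d : ℕ → Bool) (n : ℕ) :
    val q (sh n d) = (dig (d n) + val q (sh (n + 1) d)) / q := by
  rw [val_step hq (sh n d), sh_sh]; simp [sh]

/-- values of two sequences with common prefix -/
lemma val_split (hq : 1 < q) {n : ℕ} (h : ∀ i < n, d i = e i) :
    val q d - val q e = (val q (sh n d) - val q (sh n e)) / q ^ n := by
  have h0 : 0 < q := by linarith
  induction n with
  | zero => simp
  | succ n ih =>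
    rw [ih (fun i hi => h i (by omega)), val_sh hq d n, val_sh hq e n, h n (by omega), pow_succ]
    field_simp
    ring

lemma val_pre_sub (hq : 1 < q) (u s t : ℕ → Bool) (n : ℕ) :
    val q (pre u n s) - val q (pre u n t) = (val q s - val q t) / q ^ n := by
  rw [val_split hq (n := n) (fun i hi => by rw [pre_lt hi, pre_lt hi]), sh_pre, sh_pre]

lemma val_pos (hq : 1 < q) {n : ℕ} (hn : d n = true) : 0 < val q d := by
  have h0 : 0 < q := by linarith
  have h := (summable_val hq d).sum_le_tsum {n} (fun i _ => by split_ifs <;> positivity)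
  rw [Finset.sum_singleton, hn] at h
  refine lt_of_lt_of_le ?_ h
  simp; positivity

/-- monotonicity and Lipschitz bound in the base -/
lemma val_base (hp : 1 < p) (hpq : p ≤ q) (d : ℕ → Bool) :
    val q d ≤ val p d ∧ val p d - val q d ≤ (q - p) / ((p - 1) * (q - 1)) := by
  have hq : 1 < q := by linarith
  have hp0 : 0 < p := by linarith
  have h1 := (hasSum_val hp d).sub (hasSum_val hq d)
  have h2 := (hasSum_ones hp).sub (hasSum_ones hq)
  have key : ∀ i : ℕ, 0 ≤ 1 / p ^ (i + 1) - 1 / q ^ (i + 1) := fun i => by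
    rw [sub_nonneg]
    exact one_div_le_one_div_of_le (by positivity) (pow_le_pow_left₀ hp0.le hpq _)
  have e1 : ∀ i : ℕ, dig (d i) / p ^ (i + 1) - dig (d i) / q ^ (i + 1)
      = dig (d i) * (1 / p ^ (i + 1) - 1 / q ^ (i + 1)) := fun i => by ring
  constructor
  · have := h1.nonneg (fun i => by rw [e1]; exact mul_nonneg (dig_nonneg _) (key i))
    linarith
  · have := hasSum_le (fun i => by
      rw [e1]; exact mul_le_of_le_one_left (key i) (dig_le _)) h1 h2
    refine this.trans (le_of_eq ?_)
    have : p - 1 ≠ 0 := by linarith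
    have : q - 1 ≠ 0 := by linarith
    field_simp
    ring

lemma val_mono (hp : 1 < p) (hpq : p ≤ q) (d : ℕ → Bool) : val q d ≤ val p d := (val_base hp hpq d).1

lemma val_strict (hp : 1 < p) (hpq : p < q) (h0 : d 0 = true) :
    1 / p - 1 / q ≤ val p d - val q d := by
  have hq : 1 < q := by linarith
  rw [val_step hp d, val_step hq d, h0]
  have h1 := val_mono hp hpq.le (sh 1 d)
  have h2 := val_nonneg hp (sh 1 d)
  have h3 : val q (sh 1 d) / q ≤ val p (sh 1 d) / p := by
    have hp0 : 0 < p := by linarith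
    exact div_le_div₀ h2 h1 hp0 hpq.le
  simp only [dig_true, add_div]
  linarith

lemma val_strict' (hp : 1 < p) (hpq : p < q) {n : ℕ} (hn : d n = true) : val q d < val p d := by
  have hq : 1 < q := by linarith
  have hp0 : 0 < p := by linarith
  have h1 := (hasSum_val hp d).sub (hasSum_val hq d)
  have key : ∀ i : ℕ, 0 ≤ dig (d i) / p ^ (i + 1) - dig (d i) / q ^ (i + 1) := fun i => by
    rw [sub_nonneg]
    exact div_le_div_of_nonneg_left (dig_nonneg _) (by positivity)
      (pow_le_pow_left₀ hp0.le hpq.le _)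
  have h2 := sum_le_hasSum {n} (fun i _ => key i) h1
  rw [Finset.sum_singleton, hn] at h2
  have h3 : 1 / q ^ (n + 1) < 1 / p ^ (n + 1) :=
    one_div_lt_one_div_of_lt (by positivity) (pow_lt_pow_left₀ hpq hp0.le (by omega))
  simp only [dig_true] at h2
  linarith

lemma val_continuousOn (d : ℕ → Bool) : ContinuousOn (fun p => val p d) (Ioi 1) := by
  intro p₀ hp₀
  have hp₀' : (1 : ℝ) < p₀ := hp₀
  refine (Metric.continuousWithinAt_iff).2 fun ε hε => ?_
  set m := (1 + p₀) / 2 with hm
  have hm1 : 1 < m := by rw [hm]; linarith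
  refine ⟨min (p₀ - m) (ε * (m - 1) ^ 2), lt_min (by rw [hm]; linarith)
    (mul_pos hε (pow_pos (by linarith) 2)), ?_⟩
  intro p hp hd
  have hd1 := hd.trans_le (min_le_left _ _)
  have hd2 := hd.trans_le (min_le_right _ _)
  rw [Real.dist_eq] at hd1 hd2 ⊢
  have hpm : m ≤ p := by
    have := (abs_lt.1 hd1).1; linarith
  have hpm0 : m ≤ p₀ := by rw [hm]; linarith
  have hm2 : 0 < m - 1 := by linarith
  have gen : ∀ a b : ℝ, m ≤ a → a ≤ b → b - a < ε * (m - 1) ^ 2 → |val a d - val b d| < ε := by
    intro a b ha hab hlt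
    have := val_base (by linarith : 1 < a) hab d
    rw [abs_of_nonneg (by linarith [this.1])]
    refine this.2.trans_lt ?_
    rw [div_lt_iff₀ (mul_pos (by linarith) (by linarith))]
    refine hlt.trans_le ?_
    have h1 : (m - 1) ^ 2 ≤ (a - 1) * (b - 1) := by nlinarith
    nlinarith
  rcases le_total p p₀ with h | h
  · exact gen p p₀ hpm h (by rw [abs_sub_comm, abs_of_nonneg (by linarith)] at hd2; exact hd2)
  · rw [abs_sub_comm]
    exact gen p₀ p hpm0 h (by rw [abs_of_nonneg (by linarith)] at hd2; exact hd2)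

end Helper99.DVK
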