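import Mathlib
import Pool.Agent.Helper99.DVK.Basic

open Set Filter Topology

namespace Helper99.DVK

variable {p q x : ℝ} {d e f s t u α : ℕ → Bool}

/-- strict lexicographic order -/
def LexLt (d e : ℕ → Bool) : Prop := ∃ n, (∀ i < n, d i = e i) ∧ d n = false ∧ e n = true

lemma LexLt.irrefl : ¬ LexLt d d := by
  rintro ⟨n, -, h1, h2⟩; rw [h1] at h2; exact absurd h2 (by simp)

lemma lex_tri (d e : ℕ → Bool) : d = e ∨ LexLt d e ∨ LexLt e d := by
  classical
  by_cases h : d = e
  · exact Or.inl h
  · right
    have hex : ∃ n, d n ≠ e n := by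
      by_contra hc; push Not at hc; exact h (funext hc)
    have h1 := Nat.find_spec hex
    have h2 : ∀ i < Nat.find hex, d i = e i := fun i hi => by
      have := Nat.find_min hex hi; simpa using this
    cases hd : d (Nat.find hex) with
    | false =>
      left
      refine ⟨_, h2, hd, ?_⟩
      rw [hd] at h1
      cases he : e (Nat.find hex) with
      | false => rw [he] at h1; exact absurd rfl h1
      | true => rfl
    | true =>
      right
      refine ⟨_, fun i hi => (h2 i hi).symm, ?_, hd⟩
      rw [hd] at h1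
      cases he : e (Nat.find hex) with
      | false => rfl
      | true => rw [he] at h1; exact absurd rfl h1

lemma LexLt.co (h : LexLt d e) : LexLt (co e) (co d) := by
  obtain ⟨n, h1, h2, h3⟩ := h
  exact ⟨n, fun i hi => by simp [DVK.co, h1 i hi], by simp [DVK.co, h3], by simp [DVK.co, h2]⟩

lemma LexLt.trans (h1 : LexLt d e) (h2 : LexLt e f) : LexLt d f := by
  obtain ⟨n, a1, a2, a3⟩ := h1
  obtain ⟨m, b1, b2, b3⟩ := h2
  rcases lt_trichotomy n m with h | h | h
  · exact ⟨n, fun i hi => (a1 i hi).trans (b1 i (hi.trans h)), a2, by rw [← b1 n h, a3]⟩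
  · subst h; rw [a3] at b2; exact absurd b2 (by simp)
  · exact ⟨m, fun i hi => (a1 i (hi.trans h)).trans (b1 i hi), by rw [a1 m h, b2], b3⟩

lemma LexLt.asymm (h1 : LexLt d e) (h2 : LexLt e d) : False := LexLt.irrefl (h1.trans h2)

/-- the digit in front -/
def cons (b : Bool) (s : ℕ → Bool) : ℕ → Bool := fun i => if i = 0 then b else s (i - 1)

@[simp] lemma cons_zero (b : Bool) (s) : cons b s 0 = b := rfl
@[simp] lemma cons_succ (b : Bool) (s) (i : ℕ) : cons b s (i + 1) = s i := by simp [cons]
@[simp] lemma sh_one_cons (b : Bool) (s) : sh 1 (cons b s) = s := by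
  funext i; simp [sh, Nat.add_comm 1 i]

lemma val_cons (hq : 1 < q) (b : Bool) (s) : val q (cons b s) = (dig b + val q s) / q := by
  rw [val_step hq]; simp

/-- the basic identity at the first difference -/
lemma val_lex (hp : 1 < p) {n : ℕ} (h : ∀ i < n, d i = e i) (h1 : d n = false) (h2 : e n = true) :
    val p d - val p e = (val p (sh (n + 1) d) - 1 - val p (sh (n + 1) e)) / p ^ (n + 1) := by
  have hp0 : 0 < p := by linarith
  rw [val_split hp h, val_sh hp d n, val_sh hp e n, h1, h2, pow_succ]
  simp only [dig_false, dig_true]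
  field_simp
  ring

lemma tail_le_one (hp : 1 < p) (hα : val p α ≤ 1)
    (hd : ∀ n, d n = false → sh (n + 1) d = α ∨ LexLt (sh (n + 1) d) α) :
    ∀ n, d n = false → val p (sh (n + 1) d) ≤ 1 := by
  have hp0 : 0 < p := by linarith
  have hB : 0 ≤ 1 / (p - 1) := by have : 0 < p - 1 := by linarith
                                  positivity
  have key : ∀ m n, d n = false → val p (sh (n + 1) d) - 1 ≤ (1 / p) ^ m * (1 / (p - 1)) := by
    intro m
    induction m with
    | zero =>
      intro n _
      have := val_le hp (sh (n + 1) d)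
      simp only [pow_zero, one_mul]
      linarith
    | succ m ih =>
      intro n hn
      rcases hd n hn with h | ⟨k, h1, h2, h3⟩
      · rw [h]
        have : 0 ≤ (1 / p) ^ (m + 1) * (1 / (p - 1)) := by positivity
        linarith
      · have h4 := val_lex hp h1 h2 h3
        have h2' : d (n + 1 + k) = false := h2
        have h5 := ih _ h2'
        rw [sh_sh] at h4
        have h6 := val_nonneg hp (sh (k + 1) α)
        set Y := (1 / p) ^ m * (1 / (p - 1)) with hY
        have hY0 : 0 ≤ Y := by positivity
        have h7 : (val p (sh (n + 1 + (k + 1)) d) - 1 - val p (sh (k + 1) α)) / p ^ (k + 1)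
            ≤ Y / p := by
          rw [div_le_div_iff₀ (by positivity) hp0]
          have h8 : val p (sh (n + 1 + (k + 1)) d) - 1 - val p (sh (k + 1) α) ≤ Y := by
            rw [show n + 1 + (k + 1) = n + 1 + k + 1 by ring]; linarith
          have h9 : p ≤ p ^ (k + 1) := by
            calc p = p ^ 1 := (pow_one p).symm
              _ ≤ p ^ (k + 1) := pow_le_pow_right₀ hp.le (by omega)
          calc _ ≤ Y * p := mul_le_mul_of_nonneg_right h8 hp0.le
            _ ≤ Y * p ^ (k + 1) := mul_le_mul_of_nonneg_left h9 hY0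
        have h10 : (1 / p) ^ (m + 1) * (1 / (p - 1)) = Y / p := by rw [hY, pow_succ]; ring
        rw [h10]
        linarith
  intro n hn
  have lim : Tendsto (fun m : ℕ => (1 / p) ^ m * (1 / (p - 1))) atTop (𝓝 (0 * (1 / (p - 1)))) :=
    (tendsto_pow_atTop_nhds_zero_of_lt_one (by positivity)
      (by rw [div_lt_one hp0]; exact hp)).mul_const _
  rw [zero_mul] at lim
  have := ge_of_tendsto' lim (fun m => key m n hn)
  linarith

lemma tail_lt_one (hp : 1 < p) (hα : val p α < 1)
    (hd : ∀ n, d n = false → sh (n + 1) d = α ∨ LexLt (sh (n + 1) d) α) :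
    ∀ n, d n = false → val p (sh (n + 1) d) < 1 := by
  intro n hn
  have hp0 : 0 < p := by linarith
  rcases hd n hn with h | ⟨k, h1, h2, h3⟩
  · rw [h]; exact hα
  · have h4 := val_lex hp h1 h2 h3
    have h2' : d (n + 1 + k) = false := h2
    have h5 := tail_le_one hp hα.le hd _ h2'
    rw [sh_sh] at h4
    have h6 := val_nonneg hp (sh (k + 1) α)
    have h7 : (val p (sh (n + 1 + (k + 1)) d) - 1 - val p (sh (k + 1) α)) / p ^ (k + 1) ≤ 0 := by
      apply div_nonpos_of_nonpos_of_nonneg _ (by positivity)
      rw [show n + 1 + (k + 1) = n + 1 + k + 1 by ring]; linarith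
    linarith

lemma tail_lt_one' (hp : 1 < p) (hα : val p α ≤ 1) (hpos : ∀ m, 0 < val p (sh m α))
    (hd : ∀ n, d n = false → LexLt (sh (n + 1) d) α) :
    ∀ n, d n = false → val p (sh (n + 1) d) < 1 := by
  intro n hn
  have hp0 : 0 < p := by linarith
  obtain ⟨k, h1, h2, h3⟩ := hd n hn
  have h4 := val_lex hp h1 h2 h3
  have h2' : d (n + 1 + k) = false := h2
  have h5 := tail_le_one hp hα (fun n hn => Or.inr (hd n hn)) _ h2'
  rw [sh_sh] at h4
  have h6 := hpos (k + 1)
  have h7 : (val p (sh (n + 1 + (k + 1)) d) - 1 - val p (sh (k + 1) α)) / p ^ (k + 1) < 0 := by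
    apply div_neg_of_neg_of_pos _ (by positivity)
    rw [show n + 1 + (k + 1) = n + 1 + k + 1 by ring]; linarith
  linarith

lemma unique_of_tails (hp : 1 < p) (h0 : ∀ n, d n = false → val p (sh (n + 1) d) < 1)
    (h1 : ∀ n, d n = true → val p (sh (n + 1) (co d)) < 1) : ∀ e, val p e = val p d → e = d := by
  have hp0 : 0 < p := by linarith
  intro e he
  rcases lex_tri e d with h | ⟨n, a1, a2, a3⟩ | ⟨n, a1, a2, a3⟩
  · exact h
  · exfalso
    have h2 := val_lex hp a1 a2 a3
    rw [he, sub_self] at h2
    have h3 : val p (sh (n + 1) e) - 1 - val p (sh (n + 1) d) = 0 := by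
      rcases div_eq_zero_iff.1 h2.symm with h | h
      · exact h
      · exact absurd h (by positivity)
    have h4 := h1 n a3
    rw [← co_sh, val_co hp] at h4
    have h5 := val_le hp (sh (n + 1) e)
    linarith
  · exfalso
    have h2 := val_lex hp a1 a2 a3
    rw [he, sub_self] at h2
    have h3 : val p (sh (n + 1) d) - 1 - val p (sh (n + 1) e) = 0 := by
      rcases div_eq_zero_iff.1 h2.symm with h | h
      · exact h
      · exact absurd h (by positivity)
    have h4 := h0 n a2
    have h5 := val_nonneg hp (sh (n + 1) e)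
    linarith

/-- greedy remainders -/
noncomputable def rem (p y : ℝ) : ℕ → ℝ
  | 0 => y
  | n + 1 => if 1 ≤ p * rem p y n then p * rem p y n - 1 else p * rem p y n

lemma exists_expansion (hp : 1 < p) (hp2 : p ≤ 2) {y : ℝ} (h0 : 0 ≤ y) (h1 : y ≤ 1 / (p - 1)) :
    ∃ d, val p d = y := by
  have hp0 : 0 < p := by linarith
  have hp1 : 0 < p - 1 := by linarith
  have hinv : ∀ n, 0 ≤ rem p y n ∧ rem p y n ≤ 1 / (p - 1) := by
    intro n
    induction n with
    | zero => exact ⟨h0, h1⟩
    | succ n ih =>
      have h2 : p * rem p y n ≤ 1 / (p - 1) + 1 := by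
        calc p * rem p y n ≤ p * (1 / (p - 1)) := mul_le_mul_of_nonneg_left ih.2 hp0.le
          _ = 1 / (p - 1) + 1 := by field_simp; ring
      have h3 : (1 : ℝ) ≤ 1 / (p - 1) := by rw [le_div_iff₀ hp1]; linarith
      simp only [rem]
      split_ifs with h
      · exact ⟨by linarith, by linarith⟩
      · exact ⟨mul_nonneg hp0.le ih.1, by linarith⟩
  let d : ℕ → Bool := fun n => decide (1 ≤ p * rem p y n)
  have hstep : ∀ n, p * rem p y n = dig (d n) + rem p y (n + 1) := by
    intro n
    simp only [rem, d]
    split_ifs with h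
    · simp [h]
    · simp [h]
  have hsum : ∀ n, ∑ i ∈ Finset.range n, dig (d i) / p ^ (i + 1) = y - rem p y n / p ^ n := by
    intro n
    induction n with
    | zero => simp [rem]
    | succ n ih =>
      rw [Finset.sum_range_succ, ih]
      have h2 : dig (d n) = p * rem p y n - rem p y (n + 1) := by linarith [hstep n]
      rw [h2, pow_succ]
      field_simp
      ring
  refine ⟨d, ?_⟩
  have l1 := (hasSum_val hp d).tendsto_sum_nat
  have l2 : Tendsto (fun n => y - rem p y n / p ^ n) atTop (𝓝 (y - 0)) := by
    apply tendsto_const_nhds.sub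
    have l3 : Tendsto (fun n : ℕ => (1 / (p - 1)) * (1 / p) ^ n) atTop (𝓝 ((1 / (p - 1)) * 0)) :=
      (tendsto_pow_atTop_nhds_zero_of_lt_one (by positivity)
        (by rw [div_lt_one hp0]; exact hp)).const_mul _
    rw [mul_zero] at l3
    refine squeeze_zero (fun n => div_nonneg (hinv n).1 (by positivity)) (fun n => ?_) l3
    rw [one_div_pow, ← div_eq_mul_one_div]
    exact div_le_div_of_nonneg_right (hinv n).2 (by positivity)
  rw [sub_zero] at l2
  refine tendsto_nhds_unique l1 ?_
  refine l2.congr fun n => (hsum n).symm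

lemma strict_of_unique (hp : 1 < p) (hp2 : p ≤ 2) (hu : ∀ e, val p e = val p d → e = d) :
    ∀ n, d n = false → val p (sh (n + 1) d) < 1 := by
  have hp0 : 0 < p := by linarith
  intro n hn
  by_contra hc
  push Not at hc
  have h1 := val_le hp (sh (n + 1) d)
  obtain ⟨s, hs⟩ := exists_expansion hp hp2 (y := val p (sh (n + 1) d) - 1) (by linarith)
    (by linarith)
  have h2 := hu (pre d n (cons true s)) (by
    have h3 := val_pre_sub hp d (cons true s) (sh n d) n
    rw [pre_self] at h3
    rw [val_cons hp, hs, val_sh hp d n, hn] at h3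
    simp only [dig_true, dig_false] at h3
    have : (1 + (val p (sh (n + 1) d) - 1)) / p - (0 + val p (sh (n + 1) d)) / p = 0 := by ring
    rw [this, zero_div] at h3
    linarith)
  have h3 := congrFun h2 n
  rw [pre_ge le_rfl, Nat.sub_self, cons_zero, hn] at h3
  exact absurd h3 (by simp)

lemma strict_of_unique_co (hp : 1 < p) (hp2 : p ≤ 2) (hu : ∀ e, val p e = val p d → e = d) :
    ∀ n, d n = true → val p (sh (n + 1) (co d)) < 1 := by
  intro n hn
  refine strict_of_unique hp hp2 (d := co d) (fun e he => ?_) n (by simp [co, hn])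
  rw [val_co hp] at he
  have := hu (co e) (by rw [val_co hp]; linarith)
  rw [← this, co_co]

/-- a number in the switch region after a word has two expansions -/
lemma not_unique (hp : 1 < p) (hp2 : p ≤ 2) (T : (ℕ → Bool) → (ℕ → Bool))
    (hT : Function.Injective T) {a b : ℝ} (hb : 0 < b) (hval : ∀ s, val p (T s) = a + b * val p s)
    (h1 : a + b * (1 / p) ≤ x) (h2 : x ≤ a + b * (1 / (p * (p - 1)))) :
    ¬ ∃! d, val p d = x := by
  have hp0 : 0 < p := by linarith
  have hp1 : 0 < p - 1 := by linarith
  set y := (x - a) / b with hy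
  have hy1 : 1 / p ≤ y := by rw [hy, le_div_iff₀ hb]; linarith
  have hy2 : y ≤ 1 / (p * (p - 1)) := by rw [hy, div_le_iff₀ hb]; linarith
  have hxy : a + b * y = x := by rw [hy]; field_simp; ring
  have hpy1 : 1 ≤ p * y := by
    have := mul_le_mul_of_nonneg_left hy1 hp0.le
    rwa [mul_one_div_cancel hp0.ne'] at this
  have hpy2 : p * y ≤ 1 / (p - 1) := by
    have := mul_le_mul_of_nonneg_left hy2 hp0.le
    refine this.trans (le_of_eq ?_); field_simp
  obtain ⟨s, hs⟩ := exists_expansion hp hp2 (y := p * y) (by linarith) hpy2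
  obtain ⟨s', hs'⟩ := exists_expansion hp hp2 (y := p * y - 1) (by linarith) (by linarith)
  rintro ⟨d, hd, hu⟩
  have e1 : T (cons false s) = d := hu _ (by
    show val p (T (cons false s)) = x
    rw [hval, val_cons hp, hs]; simp only [dig_false, zero_add]
    rw [mul_div_cancel_left₀ _ hp0.ne', hxy])
  have e2 : T (cons true s') = d := hu _ (by
    show val p (T (cons true s')) = x
    rw [hval, val_cons hp, hs']; simp only [dig_true, add_sub_cancel]
    rw [mul_div_cancel_left₀ _ hp0.ne', hxy])
  have e3 := congrFun (hT (e1.trans e2.symm)) 0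
  simp at e3

lemma all_false (hp : 1 < p) (hg : p * (p - 1) ≤ 1)
    (hA : ∀ n, d n = false → val p (sh (n + 1) d) < 1)
    (hB : ∀ n, d n = true → val p (sh (n + 1) (co d)) < 1) (h0 : d 0 = false) :
    ∀ n, d n = false := by
  have hp0 : 0 < p := by linarith
  have hp1 : 0 < p - 1 := by linarith
  intro n
  induction n with
  | zero => exact h0
  | succ n ih =>
    by_contra hc
    have hc' : d (n + 1) = true := by simpa using hc
    have h1 := hA n ih
    have h2 := hB (n + 1) hc'
    rw [← co_sh, val_co hp] at h2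
    rw [val_sh hp d (n + 1), hc', dig_true, div_lt_one hp0] at h1
    have h3 : 1 / (p - 1) < p := by linarith
    rw [div_lt_iff₀ hp1] at h3
    linarith

lemma not_unique_small (hp : 1 < p) (hg : p * (p - 1) ≤ 1) (hx0 : 0 < x) (hx1 : x < 1 / (p - 1)) :
    ¬ ∃! d, val p d = x := by
  have hp2 : p ≤ 2 := by nlinarith
  rintro ⟨d, hd, hu⟩
  have hd' : val p d = x := hd
  have hu' : ∀ e, val p e = val p d → e = d := fun e he => hu e (he.trans hd')
  have hA := strict_of_unique hp hp2 hu'
  have hB := strict_of_unique_co hp hp2 hu'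
  have hzero : ∀ e : ℕ → Bool, (∀ n, e n = false) → val p e = 0 := by
    intro e he
    simp [val, he]
  cases h0 : d 0 with
  | false =>
    have := hzero d (all_false hp hg hA hB h0)
    linarith
  | true =>
    have h1 := all_false (d := co d) hp hg (fun n hn => hB n (by simpa [co] using hn))
      (fun n hn => by rw [co_co]; exact hA n (by simpa [co] using hn)) (by simp [co, h0])
    have h2 := hzero (co d) h1
    rw [val_co hp] at h2
    linarith

end Helper99.DVK
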