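import Mathlib
import Pool.Agent.Helper99.DVK.Lex

open Set Filter Topology

namespace Helper99.DVK

variable {p q x : ℝ} {d e f s t u α : ℕ → Bool} {n : ℕ}

/-- univoque sequences -/
structure Uni (α : ℕ → Bool) : Prop where
  zero : α 0 = true
  lt : ∀ n, 1 ≤ n → LexLt (sh n α) α
  gt : ∀ n, 1 ≤ n → LexLt (co α) (sh n α)

lemma vals_of_unique (hq : 1 < q) (hq2 : q < 2) (hα : val q α = 1)
    (hu : ∀ e, val q e = val q α → e = α) :
    α 0 = true ∧ (∀ n, 1 ≤ n → val q (sh n α) < 1) ∧ (∀ n, 1 ≤ n → val q (sh n (co α)) < 1) := by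
  have hq0 : 0 < q := by linarith
  have hA := strict_of_unique hq hq2.le hu
  have hB := strict_of_unique_co hq hq2.le hu
  have h0 : α 0 = true := by
    by_contra hc
    have hc' : α 0 = false := by simpa using hc
    have h1 := hA 0 hc'
    have h2 := val_sh hq α 0
    rw [sh_zero, hα, hc', dig_false, zero_add, eq_div_iff hq0.ne'] at h2
    linarith
  have h1 : ∀ n, 1 ≤ n → val q (sh n α) < 1 := by
    intro n
    induction n with
    | zero => intro h; omega
    | succ n ih =>
      intro _
      cases hn : α n with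
      | false => exact hA n hn
      | true =>
        have h2 := val_sh hq α n
        rw [hn, dig_true, eq_div_iff hq0.ne'] at h2
        have h3 : val q (sh n α) ≤ 1 := by
          rcases Nat.eq_zero_or_pos n with h | h
          · subst h; rw [sh_zero, hα]
          · exact (ih h).le
        nlinarith
  refine ⟨h0, h1, ?_⟩
  intro n
  induction n with
  | zero => intro h; omega
  | succ n ih =>
    intro _
    cases hn : α n with
    | true => exact hB n hn
    | false =>
      have hn0 : 1 ≤ n := by
        rcases Nat.eq_zero_or_pos n with h | h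
        · subst h; rw [h0] at hn; exact absurd hn (by simp)
        · exact h
      have h2 := val_sh hq (co α) n
      have h4 : co α n = true := by simp [co, hn]
      rw [h4, dig_true, eq_div_iff hq0.ne'] at h2
      have h3 := ih hn0
      nlinarith

lemma uni_of_unique (hq : 1 < q) (hq2 : q < 2) (hα : val q α = 1)
    (hu : ∀ e, val q e = val q α → e = α) : Uni α := by
  have hq0 : 0 < q := by linarith
  obtain ⟨h0, h1, h2⟩ := vals_of_unique hq hq2 hα hu
  have aux : ∀ s : ℕ → Bool, val q s < 1 → LexLt s α := by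
    intro s hs
    rcases lex_tri s α with h | h | ⟨k, a1, a2, a3⟩
    · rw [h, hα] at hs; exact absurd hs (lt_irrefl _)
    · exact h
    · exfalso
      have h3 := val_lex hq a1 a2 a3
      have h4 := h1 (k + 1) (by omega)
      have h5 := val_nonneg hq (sh (k + 1) s)
      have h6 : (val q (sh (k + 1) α) - 1 - val q (sh (k + 1) s)) / q ^ (k + 1) < 0 :=
        div_neg_of_neg_of_pos (by linarith) (by positivity)
      linarith
  refine ⟨h0, fun n hn => aux _ (h1 n hn), fun n hn => ?_⟩
  have h3 := (aux _ (h2 n hn)).co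
  rwa [co_sh, co_co] at h3

lemma Uni.exists_true (hα : Uni α) (m : ℕ) : ∃ n ≥ m, α n = true := by
  obtain ⟨k, -, -, h⟩ := hα.gt (m + 1) (by omega)
  exact ⟨m + 1 + k, by omega, h⟩

lemma Uni.no_carry (hα : Uni α) {h m : ℕ} (hh : 1 ≤ h) (h1 : ∀ k < m, α (h + k) = α k)
    (h2 : α (h + m) = true) (h3 : α m = false) : False := by
  obtain ⟨t, g1, g2, g3⟩ := hα.lt h hh
  have g2' : α (h + t) = false := g2
  rcases lt_trichotomy t m with ht | ht | ht
  · have := h1 t ht; rw [g2', g3] at this; exact absurd this (by simp)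
  · subst ht; rw [h2] at g2'; exact absurd g2' (by simp)
  · have h4 : α (h + m) = α m := g1 m ht
    rw [h2, h3] at h4; exact absurd h4 (by simp)

/-- good prefixes -/
def Good (α : ℕ → Bool) (n : ℕ) : Prop :=
  α n = true ∧ ∀ i, 1 ≤ i → i ≤ n → ∃ k, i + k ≤ n ∧ α (i + k) = α k

lemma Uni.good_large (hα : Uni α) (m : ℕ) : ∃ n ≥ m, Good α n := by
  classical
  obtain ⟨n, hn, hn1⟩ := hα.exists_true m
  by_cases hg : Good α n
  · exact ⟨n, hn, hg⟩
  · have hex : ∃ i, 1 ≤ i ∧ i ≤ n ∧ ∀ k, i + k ≤ n → α (i + k) ≠ α k := by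
      by_contra hc
      push Not at hc
      exact hg ⟨hn1, fun i h1 h2 => by obtain ⟨k, h3, h4⟩ := hc i h1 h2; exact ⟨k, h3, h4⟩⟩
    obtain ⟨h1, h2, h3⟩ := Nat.find_spec hex
    have hmin := fun j hj => Nat.find_min hex (m := j) hj
    set i := Nat.find hex with hi
    obtain ⟨l, g1, g2, g3⟩ := hα.gt i h1
    have g3' : α (i + l) = true := g3
    have g2' : α l = true := by simpa [co] using g2
    have hl : n < i + l := by
      by_contra hc
      exact h3 l (by omega) (by rw [g3', g2'])
    refine ⟨i + l, by omega, g3', ?_⟩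
    intro i' hi1 hi2
    rcases lt_trichotomy i' i with h | h | h
    · have := hmin i' h
      push Not at this
      obtain ⟨k, hk1, hk2⟩ := this hi1 (by omega)
      exact ⟨k, by omega, hk2⟩
    · subst h; exact ⟨l, le_rfl, by rw [g3', g2']⟩
    · by_contra hc
      push Not at hc
      obtain ⟨h', rfl⟩ : ∃ h', i' = i + h' := ⟨i' - i, by omega⟩
      have hm : α (l - h') = false := by
        have h4 := hc (l - h') (by omega)
        rw [show i + h' + (l - h') = i + l by omega, g3'] at h4
        cases h5 : α (l - h') with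
        | false => rfl
        | true => rw [h5] at h4; exact absurd rfl h4
      refine hα.no_carry (h := h') (m := l - h') (by omega) (fun k hk => ?_) ?_ hm
      · have h4 := hc k (by omega)
        have h5 : co α (h' + k) = α (i + (h' + k)) := g1 (h' + k) (by omega)
        rw [show i + h' + k = i + (h' + k) by ring, ← h5] at h4
        simp only [co] at h4
        revert h4
        cases α (h' + k) <;> cases α k <;> decide
      · rw [show h' + (l - h') = l by omega, g2']

lemma Uni.first_mismatch (hα : Uni α) (n : ℕ) :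
    ∃ l ≤ n, (∀ j < l, α (n + 1 + j) = !α j) ∧ α (n + 1 + l) = true ∧ α l = true := by
  obtain ⟨l, g1, g2, g3⟩ := hα.gt (n + 1) (by omega)
  have g3' : α (n + 1 + l) = true := g3
  have g2' : α l = true := by simpa [co] using g2
  have g1' : ∀ j < l, α (n + 1 + j) = !α j := fun j hj => (g1 j hj).symm
  refine ⟨l, ?_, g1', g3', g2'⟩
  by_contra hc
  push Not at hc
  obtain ⟨l', rfl⟩ : ∃ l', l = n + 1 + l' := ⟨l - (n + 1), by omega⟩
  have hl' : α l' = false := by
    have := g1' l' (by omega); rw [g2'] at this; simpa using this.symm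
  refine hα.no_carry (h := n + 1 + (n + 1)) (m := l') (by omega) (fun k hk => ?_) ?_ hl'
  · rw [show n + 1 + (n + 1) + k = n + 1 + (n + 1 + k) by ring, g1' _ (by omega), g1' _ (by omega)]
    simp
  · rw [show n + 1 + (n + 1) + l' = n + 1 + (n + 1 + l') by ring, g3']

lemma Uni.good_double (hα : Uni α) (hg : Good α n) (h1 : ∀ j < n, α (n + 1 + j) = !α j)
    (h2 : α (n + 1 + n) = true) : Good α (n + 1 + n) := by
  refine ⟨h2, fun i hi1 hi2 => ?_⟩
  rcases lt_trichotomy i (n + 1) with h | h | h
  · obtain ⟨k, hk1, hk2⟩ := hg.2 i hi1 (by omega)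
    exact ⟨k, by omega, hk2⟩
  · subst h; exact ⟨n, le_rfl, by rw [h2, hg.1]⟩
  · by_contra hc
    push Not at hc
    obtain ⟨h', rfl⟩ : ∃ h', i = n + 1 + h' := ⟨i - (n + 1), by omega⟩
    have hm : α (n - h') = false := by
      have h4 := hc (n - h') (by omega)
      rw [show n + 1 + h' + (n - h') = n + 1 + n by omega, h2] at h4
      cases h5 : α (n - h') with
      | false => rfl
      | true => rw [h5] at h4; exact absurd rfl h4
    refine hα.no_carry (h := h') (m := n - h') (by omega) (fun k hk => ?_) ?_ hm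
    · have h4 := hc k (by omega)
      rw [show n + 1 + h' + k = n + 1 + (h' + k) by ring, h1 (h' + k) (by omega)] at h4
      revert h4
      cases α (h' + k) <;> cases α k <;> decide
    · rw [show h' + (n - h') = n by omega, hg.1]

/-- the periodic sequence `(!α_0 … !α_{n-1} 1)^∞` -/
def per (α : ℕ → Bool) (n : ℕ) : ℕ → Bool :=
  fun j => if j % (n + 1) = n then true else !α (j % (n + 1))

lemma per_small {j : ℕ} (h : j < n) : per α n j = !α j := by
  simp only [per]; rw [Nat.mod_eq_of_lt (by omega), if_neg (by omega)]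
lemma per_n : per α n n = true := by
  simp only [per]; rw [Nat.mod_eq_of_lt (by omega), if_pos rfl]
lemma per_add (j : ℕ) : per α n (n + 1 + j) = per α n j := by
  have h : (n + 1 + j) % (n + 1) = j % (n + 1) := Nat.add_mod_left _ _
  unfold per
  rw [h]
lemma per_mod (j t : ℕ) : per α n (j + t) = per α n (j % (n + 1) + t) := by
  simp only [per]
  rw [Nat.add_mod j t, Nat.add_mod (j % (n + 1)) t, Nat.mod_mod]

/-- the comparison sequence -/
def beta (α : ℕ → Bool) (n : ℕ) : ℕ → Bool := pre α (n + 1) (per α n)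

lemma beta_small {j : ℕ} (h : j ≤ n) : beta α n j = α j := pre_lt (by omega)
lemma beta_add (j : ℕ) : beta α n (n + 1 + j) = per α n j := by
  rw [beta, pre_ge (by omega)]; congr 1; omega

lemma Uni.good_first (hα : Uni α) (hg : Good α n) {i : ℕ} (h1 : 1 ≤ i) (h2 : i ≤ n) :
    ∃ k, i + k ≤ n ∧ (∀ j < k, α (i + j) = !α j) ∧ α (i + k) = true ∧ α k = true := by
  obtain ⟨l, g1, g2, g3⟩ := hα.gt i h1
  have g3' : α (i + l) = true := g3
  have g2' : α l = true := by simpa [co] using g2
  have g1' : ∀ j < l, α (i + j) = !α j := fun j hj => (g1 j hj).symm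
  obtain ⟨k, hk1, hk2⟩ := hg.2 i h1 h2
  have hkl : l ≤ k := by
    by_contra hc
    have := g1' k (by omega)
    rw [hk2] at this
    exact absurd this (by cases α k <;> decide)
  exact ⟨l, by omega, g1', g3', g2'⟩

lemma Uni.per_lt (hα : Uni α) (hg : Good α n) {i : ℕ} (h1 : 1 ≤ i) (h2 : i ≤ n) :
    LexLt (per α n) (sh i (beta α n)) := by
  obtain ⟨k, hk, a1, a2, a3⟩ := hα.good_first hg h1 h2
  refine ⟨k, fun j hj => ?_, ?_, ?_⟩
  · show per α n j = beta α n (i + j)
    rw [per_small (by omega), beta_small (by omega), a1 j hj]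
  · rw [per_small (by omega), a3]; rfl
  · show beta α n (i + k) = true
    rw [beta_small (by omega), a2]

lemma Uni.beta_A (hα : Uni α) (hg : Good α n) (hn : 1 ≤ n) (m : ℕ) :
    LexLt (sh m (per α n)) (beta α n) := by
  have hj : m % (n + 1) < n + 1 := Nat.mod_lt _ (by omega)
  have hper : ∀ t, sh m (per α n) t = per α n (m % (n + 1) + t) := fun t => per_mod m t
  set j := m % (n + 1) with hjdef
  rcases Nat.eq_zero_or_pos j with h0 | h0
  · refine ⟨0, fun i hi => by omega, ?_, ?_⟩
    · rw [hper, h0, per_small (by omega), Nat.zero_add, hα.zero]; rfl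
    · rw [beta_small (by omega), hα.zero]
  · obtain ⟨k, hk, a1, a2, a3⟩ := hα.good_first hg h0 (by omega)
    have agree : ∀ t < k, sh m (per α n) t = beta α n t := fun t ht => by
      rw [hper, per_small (by omega), beta_small (by omega), a1 t ht]; simp
    rcases lt_or_eq_of_le hk with hk' | hk'
    · refine ⟨k, agree, ?_, ?_⟩
      · rw [hper, per_small hk', a2]; rfl
      · rw [beta_small (by omega), a3]
    · obtain ⟨k', b1, b2, b3⟩ := hα.per_lt hg (i := k + 1) (by omega) (by omega)
      refine ⟨k + 1 + k', fun t ht => ?_, ?_, b3⟩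
      · rcases lt_trichotomy t k with h | h | h
        · exact agree t h
        · subst h; rw [hper, hk', per_n, beta_small (by omega), a3]
        · obtain ⟨w, rfl⟩ : ∃ w, t = k + 1 + w := ⟨t - (k + 1), by omega⟩
          rw [hper, show j + (k + 1 + w) = n + 1 + w by omega, per_add]
          exact b1 w (by omega)
      · rw [hper, show j + (k + 1 + k') = n + 1 + k' by omega, per_add]; exact b2

lemma Uni.beta_B (hα : Uni α) (hg : Good α n) (m : ℕ) :
    LexLt (sh m (co (per α n))) (beta α n) := by
  have hj : m % (n + 1) < n + 1 := Nat.mod_lt _ (by omega)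
  have hper : ∀ t, sh m (co (per α n)) t = !per α n (m % (n + 1) + t) := fun t => by
    show (!per α n (m + t)) = _
    rw [per_mod m t]
  set j := m % (n + 1) with hjdef
  have agree : ∀ t, j + t < n → sh m (co (per α n)) t = α (j + t) := fun t ht => by
    rw [hper, per_small ht]; simp
  have atn : ∀ t, j + t = n → sh m (co (per α n)) t = false := fun t ht => by
    rw [hper, ht, per_n]; rfl
  rcases Nat.eq_zero_or_pos j with h0 | h0
  · refine ⟨n, fun i hi => ?_, atn n (by omega), ?_⟩
    · rw [agree i (by omega), beta_small (by omega), h0, Nat.zero_add]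
    · rw [beta_small le_rfl, hg.1]
  · obtain ⟨k, a1, a2, a3⟩ := hα.lt j h0
    have a2' : α (j + k) = false := a2
    have a1' : ∀ t < k, α (j + t) = α t := a1
    rcases lt_trichotomy (j + k) n with h | h | h
    · refine ⟨k, fun t ht => ?_, ?_, ?_⟩
      · rw [agree t (by omega), beta_small (by omega), a1' t ht]
      · rw [agree k h, a2']
      · rw [beta_small (by omega), a3]
    · rw [h, hg.1] at a2'; exact absurd a2' (by simp)
    · refine ⟨n - j, fun t ht => ?_, atn _ (by omega), ?_⟩
      · rw [agree t (by omega), beta_small (by omega), a1' t (by omega)]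
      · rw [beta_small (by omega), ← a1' (n - j) (by omega), show j + (n - j) = n by omega, hg.1]

lemma Uni.beta_lt (hα : Uni α) (hg : Good α n) (hn : 1 ≤ n) {m : ℕ} (hm : 1 ≤ m) :
    LexLt (sh m (beta α n)) (beta α n) := by
  rcases le_or_gt m n with h | h
  · obtain ⟨k, a1, a2, a3⟩ := hα.lt m hm
    have a2' : α (m + k) = false := a2
    have a1' : ∀ t < k, α (m + t) = α t := a1
    rcases le_or_gt (m + k) n with h1 | h1
    · refine ⟨k, fun t ht => ?_, ?_, ?_⟩
      · show beta α n (m + t) = _
        rw [beta_small (by omega), beta_small (by omega), a1' t ht]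
      · show beta α n (m + k) = _
        rw [beta_small h1, a2']
      · rw [beta_small (by omega), a3]
    · obtain ⟨k', b1, b2, b3⟩ := hα.per_lt hg (i := n - m + 1) (by omega) (by omega)
      refine ⟨n - m + 1 + k', fun t ht => ?_, ?_, b3⟩
      · show beta α n (m + t) = _
        rcases le_or_gt t (n - m) with h2 | h2
        · rw [beta_small (by omega), beta_small (by omega), a1' t (by omega)]
        · obtain ⟨w, rfl⟩ : ∃ w, t = n - m + 1 + w := ⟨t - (n - m + 1), by omega⟩
          rw [show m + (n - m + 1 + w) = n + 1 + w by omega, beta_add]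
          exact b1 w (by omega)
      · show beta α n (m + (n - m + 1 + k')) = _
        rw [show m + (n - m + 1 + k') = n + 1 + k' by omega, beta_add]; exact b2
  · have h2 : sh m (beta α n) = sh (m - (n + 1)) (per α n) := by
      funext t
      show beta α n (m + t) = per α n (m - (n + 1) + t)
      rw [← beta_add]; congr 1; omega
    rw [h2]; exact hα.beta_A hg hn _

lemma Uni.beta_lt_co (hα : Uni α) (hg : Good α n) {m : ℕ} (hm : 1 ≤ m) :
    LexLt (sh m (co (beta α n))) (beta α n) := by
  rcases le_or_gt m n with h | h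
  · obtain ⟨k, hk, a1, a2, a3⟩ := hα.good_first hg hm h
    refine ⟨k, fun t ht => ?_, ?_, ?_⟩
    · show (!beta α n (m + t)) = _
      rw [beta_small (by omega), beta_small (by omega), a1 t ht]; simp
    · show (!beta α n (m + k)) = _
      rw [beta_small hk, a2]; rfl
    · rw [beta_small (by omega), a3]
  · have h2 : sh m (co (beta α n)) = sh (m - (n + 1)) (co (per α n)) := by
      funext t
      show (!beta α n (m + t)) = !per α n (m - (n + 1) + t)
      rw [← beta_add]; congr 2; omega
    rw [h2]; exact hα.beta_B hg _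

lemma beta_true (m : ℕ) : ∃ t, sh m (beta α n) t = true := by
  refine ⟨n + 1 + ((n + 1) * m + n) - m, ?_⟩
  show beta α n (m + (n + 1 + ((n + 1) * m + n) - m)) = true
  have h : m ≤ (n + 1) * m := Nat.le_mul_of_pos_left m (by omega)
  rw [show m + (n + 1 + ((n + 1) * m + n) - m) = n + 1 + ((n + 1) * m + n) by omega, beta_add]
  simp only [per]
  rw [Nat.mul_add_mod, Nat.mod_eq_of_lt (by omega), if_pos rfl]

/-- a univoque base in the gap -/
lemma Uni.beta_base (hα : Uni α) (hg : Good α n) (hn : 1 ≤ n) (hq1 : 1 < p) (hpq : p < q)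
    (hq2 : q ≤ 2) (hval : val q α = 1) (hlt : LexLt (beta α n) α) (hbig : 1 < val p (beta α n)) :
    ∃ r ∈ Ioo p q, r ∈ univoqueBases 1 := by
  have hq : 1 < q := hq1.trans hpq
  have hq0 : 0 < q := by linarith
  have h1 : val q (beta α n) < 1 := by
    obtain ⟨k, a1, a2, a3⟩ := hlt
    have h2 := val_lex hq a1 a2 a3
    have h3 := tail_le_one hq hval.le
      (fun m _ => Or.inr ((hα.beta_lt hg hn (m := m + 1) (by omega)).trans ⟨k, a1, a2, a3⟩)) k a2
    obtain ⟨w, hw, hw1⟩ := hα.exists_true (k + 1)
    have h4 : 0 < val q (sh (k + 1) α) := val_pos hq (n := w - (k + 1)) (by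
      show α (k + 1 + (w - (k + 1))) = true
      rw [show k + 1 + (w - (k + 1)) = w by omega, hw1])
    have h6 : (val q (sh (k + 1) (beta α n)) - 1 - val q (sh (k + 1) α)) / q ^ (k + 1) < 0 :=
      div_neg_of_neg_of_pos (by linarith) (by positivity)
    linarith
  have hcont : ContinuousOn (fun r => val r (beta α n)) (Icc p q) :=
    (val_continuousOn _).mono (fun r hr => lt_of_lt_of_le hq1 hr.1)
  obtain ⟨r, hr, hr1⟩ := intermediate_value_Ioo' hpq.le hcont ⟨h1, hbig⟩
  have hr1' : val r (beta α n) = 1 := hr1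
  have hr0 : 1 < r := hq1.trans hr.1
  refine ⟨r, hr, hr0, ?_, beta α n, hr1', ?_⟩
  · norm_num
    linarith [hr.2]
  · intro e he
    have he' : val r e = 1 := he
    have hpos : ∀ m, 0 < val r (sh m (beta α n)) := fun m => by
      obtain ⟨t, ht⟩ := beta_true (α := α) (n := n) m
      exact val_pos hr0 ht
    refine unique_of_tails hr0 ?_ ?_ e (by rw [he', hr1'])
    · exact tail_lt_one' hr0 hr1'.le hpos (fun m _ => hα.beta_lt hg hn (by omega))
    · have := tail_lt_one' (d := co (beta α n)) hr0 hr1'.le hpos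
        (fun m _ => hα.beta_lt_co hg (by omega))
      exact fun m hm => this m (by simp [co, hm])

/-- structure of the expansion of `1` in a base isolated from the left -/
theorem chain (hα : Uni α) (hq1 : 1 < p) (hpq : p < q) (hq2 : q ≤ 2) (hval : val q α = 1)
    (hgap : ∀ r ∈ Ioo p q, r ∉ univoqueBases 1) :
    ∃ n₁, 1 ≤ n₁ ∧ ∀ n ≥ n₁, Good α n → (∀ j < n, α (n + 1 + j) = !α j) ∧ α (n + 1 + n) = true ∧
      Good α (n + 1 + n) := by
  have hp0 : 0 < p := by linarith
  have hp1 : 0 < p - 1 := by linarith
  have h1 : 1 < val p α := by rw [← hval]; exact val_strict' hq1 hpq hα.zero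
  have lim : Tendsto (fun n : ℕ => (1 / (p - 1)) * (1 / p) ^ n) atTop (𝓝 ((1 / (p - 1)) * 0)) :=
    (tendsto_pow_atTop_nhds_zero_of_lt_one (by positivity)
      (by rw [div_lt_one hp0]; exact hq1)).const_mul _
  rw [mul_zero] at lim
  obtain ⟨n₀, hn₀⟩ := (lim.eventually (gt_mem_nhds (show (0 : ℝ) < val p α - 1 by linarith))).exists_forall_of_atTop
  refine ⟨max n₀ 1, le_max_right _ _, fun n hn hg => ?_⟩
  have hn1 : 1 ≤ n := (le_max_right _ _).trans hn
  have hnn : n₀ ≤ n := (le_max_left _ _).trans hn
  obtain ⟨l, hl, a1, a2, a3⟩ := hα.first_mismatch n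
  have hln : l = n := by
    by_contra hne
    have hl' : l < n := by omega
    have hlt : LexLt (beta α n) α := by
      refine ⟨n + 1 + l, fun i hi => ?_, ?_, a2⟩
      · rcases le_or_gt i n with h | h
        · exact beta_small h
        · obtain ⟨w, rfl⟩ : ∃ w, i = n + 1 + w := ⟨i - (n + 1), by omega⟩
          rw [beta_add, per_small (by omega), a1 w (by omega)]
      · rw [beta_add, per_small hl', a3]; rfl
    have hbig : 1 < val p (beta α n) := by
      have h2 := val_split hq1 (d := α) (e := beta α n) (n := n + 1)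
        (fun i hi => (beta_small (by omega)).symm)
      have h3 := val_le hq1 (sh (n + 1) α)
      have h4 := val_nonneg hq1 (sh (n + 1) (beta α n))
      have h5 : (val p (sh (n + 1) α) - val p (sh (n + 1) (beta α n))) / p ^ (n + 1)
          ≤ (1 / (p - 1)) * (1 / p) ^ (n + 1) := by
        rw [one_div_pow, ← div_eq_mul_one_div]
        exact div_le_div_of_nonneg_right (by linarith) (by positivity)
      have h6 := hn₀ (n + 1) (by omega)
      linarith
    obtain ⟨r, hr, hr1⟩ := hα.beta_base hg hn1 hq1 hpq hq2 hval hlt hbig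
    exact hgap r hr hr1
  subst hln
  exact ⟨a1, a2, hα.good_double hg a1 a2⟩

end Helper99.DVK
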