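import Mathlib
import Pool.Agent.Helper99.DVK.Struct

open Set Filter Topology

namespace Helper99.DVK

/-- `1` followed by the complement of `α` -/
def om (α : ℕ → Bool) : ℕ → Bool := cons true (co α)

/-- the first `n + 1` digits of `om α`, followed by `s` -/
def P (α : ℕ → Bool) (n : ℕ) (s : ℕ → Bool) : ℕ → Bool := pre (om α) (n + 1) s

/-- `0 1^∞` -/
def zo : ℕ → Bool := cons false (fun _ => true)

/-- `1 0^∞` -/
def oz : ℕ → Bool := cons true (fun _ => false)

end Helper99.DVK
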