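import Mathlib
import Pool.Agent.Helper99.DVK.Op

open Set Filter Topology

namespace Helper99.DVK

variable {p q x : ℝ} {d e f s t u w α : ℕ → Bool} {n m k : ℕ}

lemma val_zeros (p : ℝ) : val p (fun _ => false) = 0 := by simp [val]

lemma val_ones (hp : 1 < p) : val p (fun _ => true) = 1 / (p - 1) := by
  have h := val_co hp (fun _ => false)
  rw [val_zeros, sub_zero] at h
  exact h

lemma val_zo (hp : 1 < p) : val p zo = 1 / (p * (p - 1)) := by
  have hp0 : 0 < p := by linarith
  have hp1 : 0 < p - 1 := by linarith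
  rw [zo, val_cons hp, val_ones hp, dig_false, zero_add, div_div, mul_comm]

lemma val_oz (hp : 1 < p) : val p oz = 1 / p := by
  rw [oz, val_cons hp, val_zeros, dig_true, add_zero]

lemma val_om (hq : 1 < q) (hval : val q α = 1) : val q (om α) = 1 / (q * (q - 1)) := by
  have hq0 : 0 < q := by linarith
  have hq1 : q - 1 ≠ 0 := by linarith
  rw [om, val_cons hq, val_co hq, hval, dig_true]
  field_simp
  ring

lemma co_zo : co zo = oz := by
  funext i
  rcases i with _ | i
  · rfl
  · simp [co, zo, oz]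

lemma co_pre : co (pre u n s) = pre (co u) n (co s) := by
  funext i
  simp only [co, pre]
  split_ifs <;> rfl

lemma P_eq : P α m s = cons true (pre (co α) m s) := by
  funext i
  rcases i with _ | i
  · show pre (om α) (m + 1) s 0 = _
    rw [pre_lt (by omega)]; rfl
  · show pre (om α) (m + 1) s (i + 1) = _
    rw [cons_succ]
    rcases lt_or_ge i m with h | h
    · rw [pre_lt (by omega), pre_lt h, om, cons_succ]
    · rw [pre_ge (by omega), pre_ge h]
      congr 1; omega

/-- comparison of the lower end of the switch region of `P` with `κ` -/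
lemma P_oz (hp : 1 < p) : val p (P α m oz) = val p zo + (1 - val p (pre α m zo)) / p := by
  have hp0 : 0 < p := by linarith
  have hp1 : p - 1 ≠ 0 := by linarith
  have h1 : pre (co α) m oz = co (pre α m zo) := by rw [co_pre, co_zo]
  rw [P_eq, h1, val_cons hp, val_co hp, val_zo hp, dig_true]
  field_simp
  ring

lemma g_bound (hq : 1 < q) (hval : val q α = 1) (hm : α m = true)
    (hd : ∀ j < m, α (m + 1 + j) = !α j) :
    1 - (1 / (q - 1)) / q ^ (2 * m + 1) ≤ val q (pre α m zo) := by
  have hq0 : 0 < q := by linarith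
  have hq1 : 0 < q - 1 := by linarith
  have h1 := val_split hq (d := pre α m zo) (e := α) (n := m) (fun i hi => pre_lt hi)
  rw [sh_pre, hval, val_sh hq α m, hm, dig_true, val_zo hq] at h1
  set e := co (sh (m + 1) α) with he
  have h2 := val_split hq (d := e) (e := α) (n := m) (fun i hi => by
    show (!α (m + 1 + i)) = α i
    rw [hd i hi]; simp)
  have h3 := val_nonneg hq (sh m e)
  have h4 := val_le hq (sh m α)
  have h5 : -((1 / (q - 1)) / q ^ m) ≤ (val q (sh m e) - val q (sh m α)) / q ^ m := by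
    rw [← neg_div]
    exact div_le_div_of_nonneg_right (by linarith) (by positivity)
  have h6 : val q e = 1 / (q - 1) - val q (sh (m + 1) α) := val_co hq _
  have h7 : 1 / (q * (q - 1)) - (1 + val q (sh (m + 1) α)) / q = (val q e - 1) / q := by
    rw [h6]; field_simp; ring
  rw [h7] at h1
  have h8 : -((1 / (q - 1)) / q ^ m) ≤ val q e - 1 := by
    rw [hval] at h2; linarith
  have h9 : -((1 / (q - 1)) / q ^ m) / q / q ^ m ≤ (val q e - 1) / q / q ^ m :=
    div_le_div_of_nonneg_right (div_le_div_of_nonneg_right h8 hq0.le) (by positivity)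
  have h10 : -((1 / (q - 1)) / q ^ m) / q / q ^ m = -((1 / (q - 1)) / q ^ (2 * m + 1)) := by
    rw [pow_succ, two_mul, pow_add]; field_simp
  rw [h10] at h9
  linarith

/-- if the digits before are handled up to `zo`, the next level starts in time -/
lemma key (hα0 : α 0 = true) (hq1 : 1 < q) (hq2 : q < 2) (hval : val q α = 1) (w : ℕ → Bool)
    (k : ℕ) : ∃ m₀, ∀ m ≥ m₀, α m = true → (∀ j < m, α (m + 1 + j) = !α j) → ∀ p, 1 < p → p < q →
      ∀ x, val q (pre w k (P α m zo)) ≤ x → val p (pre w k zo) < x →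
        val p (pre w k (P α m oz)) ≤ x := by
  have hq0 : 0 < q := by linarith
  have hq1' : 0 < q - 1 := by linarith
  obtain ⟨c, hc⟩ : ∃ c, c = 1 / (q - 1) := ⟨_, rfl⟩
  have hc0 : 0 < c := by rw [hc]; positivity
  have lim : Tendsto (fun m : ℕ => c * (1 / q) ^ m) atTop (𝓝 (c * 0)) :=
    (tendsto_pow_atTop_nhds_zero_of_lt_one (by positivity)
      (by rw [div_lt_one hq0]; exact hq1)).const_mul _
  rw [mul_zero] at lim
  obtain ⟨δ, hδ⟩ : ∃ δ, δ = 1 / (q * (q - 1)) - 1 / q := ⟨_, rfl⟩
  have hδ0 : 0 < δ := by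
    rw [hδ, sub_pos]
    apply one_div_lt_one_div_of_lt (by positivity)
    nlinarith
  -- the two smallness conditions
  have e1 : ∀ᶠ m : ℕ in atTop, c * (1 / q) ^ m < (q - 1) / 8 :=
    lim.eventually (gt_mem_nhds (by positivity))
  have e2 : ∀ᶠ m : ℕ in atTop, c * (1 / q) ^ m < δ * (q - 1) ^ 2 / (8 * q ^ k) :=
    lim.eventually (gt_mem_nhds (by positivity))
  obtain ⟨m₀, hm₀⟩ := eventually_atTop.1 ((e1.and e2).and (eventually_ge_atTop 1))
  refine ⟨m₀, fun m hm hαm hd p hp hpq x hx1 hx2 => ?_⟩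
  obtain ⟨⟨f1, f2⟩, f3⟩ := hm₀ m hm
  have hp0 : 0 < p := by linarith
  have hg := g_bound hq1 hval hαm hd
  rw [← hc] at hg
  rw [one_div_pow, ← div_eq_mul_one_div] at f1 f2
  have hc1 : c / q ^ (2 * m + 1) ≤ c / q ^ m / q ^ (m + 1) := by
    rw [div_div, ← pow_add]
    apply le_of_eq
    congr 2; ring
  have hqm : 1 ≤ q ^ (m + 1) := one_le_pow₀ hq1.le
  by_cases hcase : c / q ^ (2 * m + 1) ≤ 1 / p - 1 / q
  · -- far from `q`
    have h1 : (pre α m zo) 0 = true := by rw [pre_lt (by omega)]; exact hα0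
    have h2 := val_strict hp hpq h1
    have h3 : 1 ≤ val p (pre α m zo) := by linarith
    have h4 := P_oz (α := α) (m := m) hp
    have h5 : (1 - val p (pre α m zo)) / p ≤ 0 :=
      div_nonpos_of_nonpos_of_nonneg (by linarith) hp0.le
    have h6 := val_pre_sub hp w (P α m oz) zo k
    have h7 : (val p (P α m oz) - val p zo) / p ^ k ≤ 0 :=
      div_nonpos_of_nonpos_of_nonneg (by linarith) (by positivity)
    linarith
  · push Not at hcase
    have h1 : q - p < 4 * (c / q ^ (2 * m + 1)) := by
      have h2 : 1 / p - 1 / q = (q - p) / (p * q) := by field_simp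
      rw [h2, div_lt_iff₀ (by positivity)] at hcase
      have h3 : p * q ≤ 4 := by nlinarith
      have h4 : 0 < c / q ^ (2 * m + 1) := by positivity
      nlinarith
    have h2 : c / q ^ (2 * m + 1) ≤ c / q ^ m := by
      refine hc1.trans (div_le_self (by positivity) hqm)
    have h3 : (q - 1) / 2 ≤ p - 1 := by linarith
    have h4 := (val_base hp hpq.le (pre w k (P α m oz))).2
    have h5 : (q - p) / ((p - 1) * (q - 1)) ≤ 8 * (c / q ^ (2 * m + 1)) / (q - 1) ^ 2 := by
      rw [div_le_div_iff₀ (mul_pos (by linarith) hq1') (by positivity)]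
      have h6 : 0 < c / q ^ (2 * m + 1) := by positivity
      have h7 : (q - 1) ^ 2 ≤ 2 * ((p - 1) * (q - 1)) := by nlinarith
      have h8 : 0 < q - p := by linarith
      calc (q - p) * (q - 1) ^ 2 ≤ (4 * (c / q ^ (2 * m + 1))) * (q - 1) ^ 2 :=
            mul_le_mul_of_nonneg_right h1.le (by positivity)
        _ ≤ (4 * (c / q ^ (2 * m + 1))) * (2 * ((p - 1) * (q - 1))) :=
            mul_le_mul_of_nonneg_left h7 (by positivity)
        _ = 8 * (c / q ^ (2 * m + 1)) * ((p - 1) * (q - 1)) := by ring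
    have h6 : val q (pre w k (P α m zo)) - val q (pre w k (P α m oz)) = δ / q ^ (m + 1) / q ^ k := by
      rw [val_pre_sub hq1]
      congr 1
      rw [P, P, val_pre_sub hq1, val_zo hq1, val_oz hq1, hδ]
    have h7 : 8 * (c / q ^ (2 * m + 1)) / (q - 1) ^ 2 ≤ δ / q ^ (m + 1) / q ^ k := by
      have h8 : 8 * (c / q ^ m) * q ^ k ≤ δ * (q - 1) ^ 2 := by
        rw [lt_div_iff₀ (by positivity)] at f2
        linarith
      rw [div_div δ, div_le_div_iff₀ (by positivity) (by positivity)]
      calc 8 * (c / q ^ (2 * m + 1)) * (q ^ (m + 1) * q ^ k)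
          ≤ 8 * (c / q ^ m / q ^ (m + 1)) * (q ^ (m + 1) * q ^ k) := by gcongr
        _ = 8 * (c / q ^ m) * q ^ k := by field_simp
        _ ≤ δ * (q - 1) ^ 2 := h8
    linarith

/-- `pre` is injective in the tail -/
lemma pre_inj (u : ℕ → Bool) (n : ℕ) : Function.Injective (pre u n) := by
  intro s t h
  have := congrArg (sh n) h
  rwa [sh_pre, sh_pre] at this

lemma val_pre_affine (hp : 1 < p) (u s : ℕ → Bool) (n : ℕ) :
    val p (pre u n s) = val p (pre u n (fun _ => false)) + 1 / p ^ n * val p s := by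
  have h := val_pre_sub hp u s (fun _ => false) n
  rw [val_zeros, sub_zero] at h
  rw [one_div, inv_mul_eq_div]; linarith

/-- non-uniqueness from one level -/
lemma not_unique_pre (hp : 1 < p) (hp2 : p ≤ 2) (T : (ℕ → Bool) → (ℕ → Bool))
    (hT : Function.Injective T) {a b : ℝ} (hb : 0 < b) (hval : ∀ s, val p (T s) = a + b * val p s)
    (h1 : val p (T oz) ≤ x) (h2 : x ≤ val p (T zo)) : ¬ ∃! d, val p d = x := by
  refine not_unique hp hp2 T hT hb hval ?_ ?_
  · rw [hval, val_oz hp] at h1; exact h1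
  · rw [hval, val_zo hp] at h2; exact h2

/-- no univoque base below `q` -/
theorem lower (hα0 : α 0 = true) (hq1 : 1 < q) (hq2 : q < 2) (hval : val q α = 1)
    (hgold : q * (q - 1) * (q * (q - 1) - 1) ≤ 1)
    (hdbl : ∃ n₁, ∀ n ≥ n₁, Good α n → ∀ j < n, α (n + 1 + j) = !α j) :
    ∃ n₂, ∀ n ≥ n₂, Good α n → ∃ m₂, ∀ m ≥ m₂, Good α m →
      ∀ x, x = val q (P α n (P α m zo)) → x < 1 → 1 / (q * (q - 1)) < x →
        val q (P α n zo) ≤ x →
        ∀ p, 1 < p → p < q → ¬ ∃! d, val p d = x := by
  obtain ⟨n₁, hn₁⟩ := hdbl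
  have hq0 : 0 < q := by linarith
  have hq1' : 0 < q - 1 := by linarith
  obtain ⟨a₀, ha₀⟩ := key hα0 hq1 hq2 hval (fun _ => false) 0
  refine ⟨max n₁ a₀, fun n hn hgn => ?_⟩
  obtain ⟨b₀, hb₀⟩ := key hα0 hq1 hq2 hval (om α) (n + 1)
  refine ⟨max n₁ b₀, fun m hm hgm x hx hx1 hx0 hxn p hp hpq => ?_⟩
  have hp0 : 0 < p := by linarith
  have hp1 : 0 < p - 1 := by linarith
  have pre0 : ∀ s : ℕ → Bool, pre (fun _ => false) 0 s = s := fun s => by
    funext i; simp [pre]
  have key0 := ha₀ n ((le_max_right _ _).trans hn) hgn.1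
    (hn₁ n ((le_max_left _ _).trans hn) hgn) p hp hpq x (by rw [pre0]; exact hxn)
  have key1 := hb₀ m ((le_max_right _ _).trans hm) hgm.1
    (hn₁ m ((le_max_left _ _).trans hm) hgm) p hp hpq x (by rw [hx]; exact le_rfl)
  rw [pre0, pre0] at key0
  rcases le_or_gt x (val p zo) with hA | hA
  · rcases le_or_gt (1 / p) x with hB | hB
    · exact not_unique_pre (a := 0) (b := 1) hp (by linarith) id Function.injective_id one_pos
        (fun s => by simp) (by rw [id, val_oz hp]; exact hB) hA
    · -- `p` below the golden ratio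
      have hx00 : 0 < x := lt_trans (by positivity) hx0
      have h1 : p < q * (q - 1) := by
        have h2 := hx0.trans hB
        rwa [one_div_lt_one_div (by positivity) hp0] at h2
      refine not_unique_small hp (by nlinarith) hx00 (hx1.trans_le ?_)
      rw [le_div_iff₀ hp1]; linarith
  · have hk0 := key0 hA
    rcases le_or_gt x (val p (P α n zo)) with hB | hB
    · exact not_unique_pre (b := 1 / p ^ (n + 1)) hp (by linarith) (P α n) (pre_inj _ _)
        (by positivity) (fun s => val_pre_affine hp (om α) s (n + 1)) hk0 hB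
    · have hk1 := key1 hB
      refine not_unique_pre (a := val p (P α n (P α m (fun _ => false))))
        (b := 1 / p ^ (n + 1) * (1 / p ^ (m + 1))) hp (by linarith)
        (fun s => P α n (P α m s)) (fun s t h => pre_inj _ _ (pre_inj _ _ h))
        (by positivity) (fun s => ?_) hk1 ?_
      · show val p (P α n (P α m s)) = _
        have e1 : val p (P α n (P α m s)) = _ := val_pre_affine hp (om α) (P α m s) (n + 1)
        have e2 : val p (P α n (P α m (fun _ => false))) = _ :=
          val_pre_affine hp (om α) (P α m (fun _ => false)) (n + 1)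
        have e3 : val p (P α m s) = _ := val_pre_affine hp (om α) s (m + 1)
        rw [e1, e2, e3]
        show _ = _ + 1 / p ^ (n + 1) * val p (pre (om α) (m + 1) fun _ => false) + _
        ring
      · rw [hx]
        exact val_mono hp hpq.le _

end Helper99.DVK
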