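import Mathlib
import Pool.Agent.Helper99.DVK.Lower

open Set Filter Topology

namespace Helper99.DVK

variable {p q x : ℝ} {d e f s t u w α : ℕ → Bool} {n m k : ℕ}

lemma D_eq (hq : 1 < q) (hval : val q α = 1) (hm : α m = true) :
    val q (P α m zo) - val q zo = val q (sh (m + 1) α) / q ^ (m + 2) := by
  have hq0 : 0 < q := by linarith
  have hq1 : q - 1 ≠ 0 := by linarith
  have h0 : val q zo = val q (om α) := by rw [val_zo hq, val_om hq hval]
  have h1 := val_split hq (d := P α m zo) (e := om α) (n := m + 1) (fun i hi => pre_lt hi)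
  have h2 : sh (m + 1) (om α) = co (sh m α) := by
    funext i
    show om α (m + 1 + i) = !α (m + i)
    rw [show m + 1 + i = (m + i) + 1 by ring, om, cons_succ]; rfl
  rw [P, sh_pre, h2, val_co hq, val_sh hq α m, hm, dig_true, ← h0] at h1
  rw [P, h1, val_zo hq, pow_succ q (m + 1)]
  field_simp
  ring

lemma infinite_of_right (S : Set ℝ) (c : ℝ) (h : ∀ ε > 0, ∃ y ∈ S, c < y ∧ y < c + ε) :
    S.Infinite := by
  intro hS
  have hfin : (S ∩ Ioi c).Finite := hS.subset inter_subset_left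
  obtain ⟨y₁, hy₁, hc₁, -⟩ := h 1 one_pos
  obtain ⟨y₀, hy₀, hmin⟩ := hfin.exists_minimalFor id _ ⟨y₁, hy₁, hc₁⟩
  obtain ⟨y, hy, hc, hlt⟩ := h (y₀ - c) (sub_pos.2 hy₀.2)
  have := hmin ⟨hy, hc⟩ (by simp only [id]; linarith)
  simp only [id] at this
  linarith

theorem assemble (hα : Uni α) (hq1 : 1 < q) (hq2 : q < 2) (hval : val q α = 1)
    (hgold : q * (q - 1) * (q * (q - 1) - 1) ≤ 1) (hgold' : 1 < q * (q - 1))
    (hdbl : ∃ n₁, ∀ n ≥ n₁, Good α n → ∀ j < n, α (n + 1 + j) = !α j)
    (upper : ∀ n, Good α n → 1 ≤ n → ∃ m₀, ∀ m ≥ m₀, Good α m → ∀ x, 0 < x → x < 1 →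
      x = val q (P α n (P α m (om α))) → ∀ ε > 0, ∃ r ∈ Ioo q (q + ε), r ∈ univoqueBases x) :
    (accPts (levelSet q)).Infinite := by
  have hq0 : 0 < q := by linarith
  have hq1' : 0 < q - 1 := by linarith
  obtain ⟨n₂, hn₂⟩ := lower hα.zero hq1 hq2 hval hgold hdbl
  obtain ⟨κ, hκ⟩ : ∃ κ, κ = 1 / (q * (q - 1)) := ⟨_, rfl⟩
  have hκ0 : 0 < κ := by rw [hκ]; positivity
  have hκ1 : κ < 1 := by rw [hκ, div_lt_one (by positivity)]; exact hgold'
  have hzo : val q zo = κ := by rw [val_zo hq1, hκ]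
  obtain ⟨D, hD⟩ : ∃ D : ℕ → ℝ, ∀ m, D m = val q (sh (m + 1) α) / q ^ (m + 2) := ⟨_, fun _ => rfl⟩
  have hDpos : ∀ m, 0 < D m := fun m => by
    rw [hD]
    obtain ⟨w, hw, hw1⟩ := hα.exists_true (m + 1)
    refine div_pos (val_pos hq1 (n := w - (m + 1)) ?_) (by positivity)
    show α (m + 1 + (w - (m + 1))) = true
    rw [show m + 1 + (w - (m + 1)) = w by omega, hw1]
  have hDlim : ∀ ε > 0, ∃ M, ∀ m ≥ M, D m < ε := by
    intro ε hε
    have lim : Tendsto (fun m : ℕ => (1 / (q - 1)) * (1 / q) ^ m) atTop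
        (𝓝 ((1 / (q - 1)) * 0)) :=
      (tendsto_pow_atTop_nhds_zero_of_lt_one (by positivity)
        (by rw [div_lt_one hq0]; exact hq1)).const_mul _
    rw [mul_zero] at lim
    obtain ⟨M, hM⟩ := eventually_atTop.1 (lim.eventually (gt_mem_nhds hε))
    refine ⟨M, fun m hm => lt_of_le_of_lt ?_ (hM (m + 2) (by omega))⟩
    rw [hD, one_div_pow, ← div_eq_mul_one_div]
    exact div_le_div_of_nonneg_right (val_le hq1 _) (by positivity)
  obtain ⟨M₁, hM₁⟩ := hDlim ((1 - κ) / 4) (by linarith)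
  -- the points `x_n`
  have hxn : ∀ n, α n = true → val q (P α n zo) = κ + D n := fun n hn => by
    have := D_eq hq1 hval hn
    rw [hD, ← this, hzo]; ring
  have hxnm : ∀ n m, α m = true →
      val q (P α n (P α m zo)) = val q (P α n zo) + D m / q ^ (n + 1) := fun n m hm => by
    have h1 : val q (P α n (P α m zo)) - val q (P α n zo)
        = (val q (P α m zo) - val q zo) / q ^ (n + 1) := val_pre_sub hq1 (om α) _ _ (n + 1)
    rw [hxn m hm, hzo] at h1
    have h2 : κ + D m - κ = D m := by ring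
    rw [h2] at h1
    linarith
  have hacc : ∀ n, max n₂ (max M₁ 1) ≤ n → Good α n → val q (P α n zo) ∈ accPts (levelSet q) := by
    intro n hn hgn
    have hn1 : n₂ ≤ n := (le_max_left _ _).trans hn
    have hn2 : M₁ ≤ n := ((le_max_left _ _).trans (le_max_right _ _)).trans hn
    have hn3 : 1 ≤ n := ((le_max_right _ _).trans (le_max_right _ _)).trans hn
    obtain ⟨m₂, hm₂⟩ := hn₂ n hn1 hgn
    obtain ⟨m₀, hm₀⟩ := upper n hgn hn3
    intro U hU
    obtain ⟨ε, hε, hball⟩ := Metric.mem_nhds_iff.1 hU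
    refine infinite_of_right _ (val q (P α n zo)) fun η hη => ?_
    obtain ⟨M₂, hM₂⟩ := hDlim (min η ε) (lt_min hη hε)
    obtain ⟨m, hm, hgm⟩ := hα.good_large (max (max m₂ m₀) (max M₁ M₂))
    have g1 : m₂ ≤ m := ((le_max_left _ _).trans (le_max_left _ _)).trans hm
    have g2 : m₀ ≤ m := ((le_max_right _ _).trans (le_max_left _ _)).trans hm
    have g3 : M₁ ≤ m := ((le_max_left _ _).trans (le_max_right _ _)).trans hm
    have g4 : M₂ ≤ m := ((le_max_right _ _).trans (le_max_right _ _)).trans hm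
    obtain ⟨x, hx⟩ : ∃ x, x = val q (P α n (P α m zo)) := ⟨_, rfl⟩
    have hx1 := hxnm n m hgm.1
    rw [← hx] at hx1
    have hx2 := hxn n hgn.1
    have hDn := hM₁ n hn2
    have hDm := hM₁ m g3
    have hDm2 := hM₂ m g4
    have hpw : 1 ≤ q ^ (n + 1) := one_le_pow₀ hq1.le
    have h3 : D m / q ^ (n + 1) ≤ D m := div_le_self (hDpos m).le hpw
    have h4 : 0 < D m / q ^ (n + 1) := div_pos (hDpos m) (by positivity)
    have h5 := hDpos n
    have hxlt : x < 1 := by linarith
    have hx0 : 0 < x := by linarith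
    have hlow := hm₂ m g1 hgm x hx hxlt (by rw [← hκ]; linarith) (by linarith)
    have hx' : x = val q (P α n (P α m (om α))) := by
      have e0 : val q zo = val q (om α) := by rw [val_zo hq1, val_om hq1 hval]
      have e1 : val q (P α n (P α m zo)) - val q (P α n (P α m (om α)))
          = (val q (P α m zo) - val q (P α m (om α))) / q ^ (n + 1) :=
        val_pre_sub hq1 (om α) _ _ (n + 1)
      have e2 : val q (P α m zo) - val q (P α m (om α))
          = (val q zo - val q (om α)) / q ^ (m + 1) := val_pre_sub hq1 (om α) _ _ (m + 1)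
      rw [e2, e0, sub_self, zero_div, zero_div] at e1
      linarith
    have hup := hm₀ m g2 hgm x hx0 hxlt hx'
    have hmin : smallestBase x = q := by
      have hglb : IsGLB (univoqueBases x) q := by
        constructor
        · rintro p ⟨hp1, -, hp3⟩
          by_contra hc
          push Not at hc
          exact hlow p hp1 hc hp3
        · intro b hb
          by_contra hc
          push Not at hc
          obtain ⟨r, hr, hr1⟩ := hup (b - q) (by linarith)
          have := hb hr1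
          linarith [hr.2]
      obtain ⟨r, hr, hr1⟩ := hup 1 one_pos
      exact hglb.csInf_eq ⟨r, hr1⟩
    refine ⟨x, ⟨hball ?_, hx0, hmin⟩, by linarith, ?_⟩
    · rw [Metric.mem_ball, Real.dist_eq, abs_of_pos (by linarith)]
      have := min_le_right η ε
      linarith
    · have := min_le_left η ε
      linarith
  refine infinite_of_right _ κ fun η hη => ?_
  obtain ⟨M₂, hM₂⟩ := hDlim η hη
  obtain ⟨n, hn, hgn⟩ := hα.good_large (max (max n₂ (max M₁ 1)) M₂)
  refine ⟨_, hacc n ((le_max_left _ _).trans hn) hgn, ?_, ?_⟩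
  · rw [hxn n hgn.1]; linarith [hDpos n]
  · rw [hxn n hgn.1]; linarith [hM₂ n ((le_max_right _ _).trans hn)]

end Helper99.DVK
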