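import Mathlib
import Pool.Agent.Helper99.DVK.Assembly

open Set Filter Topology

namespace Helper99.DVK

variable {p q x : ℝ} {d e f s t u w α : ℕ → Bool} {n m k : ℕ}

/-- `!α_0 … !α_{n-1} 1 s` -/
def pl (α : ℕ → Bool) (n : ℕ) (s : ℕ → Bool) : ℕ → Bool := pre (co α) n (cons true s)

lemma P_cons : P α n (cons true s) = cons true (pl α n s) := P_eq

lemma pl_lt {i : ℕ} (h : i < n) : pl α n s i = !α i := pre_lt h
lemma pl_n : pl α n s n = true := by rw [pl, pre_ge le_rfl, Nat.sub_self]; rfl
lemma pl_add (i : ℕ) : pl α n s (n + 1 + i) = s i := by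
  rw [pl, pre_ge (by omega), show n + 1 + i - n = i + 1 by omega, cons_succ]

lemma sh_pl (h : n < k) : sh k (pl α n s) = sh (k - (n + 1)) s := by
  funext i
  show pl α n s (k + i) = s (k - (n + 1) + i)
  rw [show k + i = n + 1 + (k - (n + 1) + i) by omega, pl_add]

/-- the complements of the tails -/
lemma Uni.plA (hα : Uni α) (hn : α n = true)
    (hs : ∀ k, sh k (co s) = α ∨ LexLt (sh k (co s)) α) :
    ∀ k, sh k (co (pl α n s)) = α ∨ LexLt (sh k (co (pl α n s))) α := by
  intro k
  rcases lt_or_ge n k with h | h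
  · have h1 : sh k (co (pl α n s)) = sh (k - (n + 1)) (co s) := by
      rw [← co_sh, sh_pl h, co_sh]
    rw [h1]; exact hs _
  · right
    have h1 : LexLt (sh k (co (pl α n s))) (sh k α) := by
      refine ⟨n - k, fun j hj => ?_, ?_, ?_⟩
      · show (!pl α n s (k + j)) = α (k + j)
        rw [pl_lt (by omega)]; simp
      · show (!pl α n s (k + (n - k))) = false
        rw [show k + (n - k) = n by omega, pl_n]; rfl
      · show α (k + (n - k)) = true
        rw [show k + (n - k) = n by omega, hn]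
    rcases Nat.eq_zero_or_pos k with hk | hk
    · subst hk; rw [sh_zero (d := α)] at h1; exact h1
    · exact h1.trans (hα.lt k hk)

/-- the tails -/
lemma Uni.plB (hα : Uni α) (hg : Good α n) (hn : 1 ≤ n)
    (hs1 : ∀ i, 1 ≤ i → i ≤ n → LexLt s (sh i α)) (hs : ∀ k, LexLt (sh k s) α) :
    ∀ k, LexLt (sh k (pl α n s)) α := by
  intro k
  rcases lt_or_ge n k with h | h
  · rw [sh_pl h]; exact hs _
  · rcases Nat.eq_zero_or_pos k with hk | hk
    · subst hk
      rw [sh_zero]
      exact ⟨0, fun i hi => by omega, by rw [pl_lt (by omega), hα.zero]; rfl, hα.zero⟩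
    · obtain ⟨l, hl, a1, a2, a3⟩ := hα.good_first hg hk h
      rcases lt_or_eq_of_le hl with h1 | h1
      · refine ⟨l, fun j hj => ?_, ?_, a3⟩
        · show pl α n s (k + j) = α j
          rw [pl_lt (by omega), a1 j hj]; simp
        · show pl α n s (k + l) = false
          rw [pl_lt h1, a2]; rfl
      · obtain ⟨t, b1, b2, b3⟩ := hs1 (l + 1) (by omega) (by omega)
        refine ⟨l + 1 + t, fun j hj => ?_, ?_, b3⟩
        · show pl α n s (k + j) = α j
          rcases lt_trichotomy j l with h2 | h2 | h2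
          · rw [pl_lt (by omega), a1 j h2]; simp
          · subst h2; rw [h1, pl_n, a3]
          · obtain ⟨v, rfl⟩ : ∃ v, j = l + 1 + v := ⟨j - (l + 1), by omega⟩
            rw [show k + (l + 1 + v) = n + 1 + v by omega, pl_add]
            exact b1 v (by omega)
        · show pl α n s (k + (l + 1 + t)) = false
          rw [show k + (l + 1 + t) = n + 1 + t by omega, pl_add]; exact b2

lemma Uni.plC (hα : Uni α) (n : ℕ) :
    ∃ m₀, ∀ m ≥ m₀, ∀ s, ∀ i, 1 ≤ i → i ≤ n → LexLt (pl α m s) (sh i α) := by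
  have h := hα.gt
  unfold LexLt at h
  choose! g h1 h2 h3 using h
  refine ⟨(Finset.range (n + 1)).sup g + 1, fun m hm s i hi1 hi2 => ?_⟩
  have hgi : g i ≤ (Finset.range (n + 1)).sup g :=
    Finset.le_sup (f := g) (Finset.mem_range.2 (by omega))
  refine ⟨g i, fun j hj => ?_, ?_, h3 i hi1⟩
  · rw [pl_lt (by omega)]; exact h1 i hi1 j hj
  · rw [pl_lt (by omega)]; exact h2 i hi1

lemma Uni.co_lt (hα : Uni α) (k : ℕ) : LexLt (sh k (DVK.co α)) α := by
  rcases Nat.eq_zero_or_pos k with hk | hk
  · subst hk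
    rw [sh_zero]
    exact ⟨0, fun i hi => by omega, by simp [DVK.co, hα.zero], hα.zero⟩
  · have := (hα.gt k hk).co
    rwa [co_co, co_sh] at this

theorem upper (hα : Uni α) (hq1 : 1 < q) (hq2 : q < 2) (hval : val q α = 1) (hg : Good α n)
    (hn : 1 ≤ n) : ∃ m₀, ∀ m ≥ m₀, Good α m → ∀ x, 0 < x → x < 1 →
      x = val q (P α n (P α m (om α))) → ∀ ε > 0, ∃ r ∈ Ioo q (q + ε), r ∈ univoqueBases x := by
  have hq0 : 0 < q := by linarith
  obtain ⟨m₀, hm₀⟩ := hα.plC n
  refine ⟨max m₀ 1, fun m hm hgm x hx0 hx1 hx ε hε => ?_⟩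
  have hm1 : 1 ≤ m := (le_max_right _ _).trans hm
  have hmm : m₀ ≤ m := (le_max_left _ _).trans hm
  obtain ⟨L₀, hL₀⟩ := hα.plC m
  -- the right end
  obtain ⟨r, hr1, hr2, hr3⟩ : ∃ r, q < r ∧ r < q + ε ∧ r ≤ 2 := by
    refine ⟨q + min (ε / 2) (2 - q), ?_, ?_, ?_⟩
    · have : 0 < min (ε / 2) (2 - q) := lt_min (by linarith) (by linarith)
      linarith
    · have := min_le_left (ε / 2) (2 - q); linarith
    · have := min_le_right (ε / 2) (2 - q); linarith
  have hr : 1 < r := by linarith
  have hr0 : 0 < r := by linarith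
  have hgap : val r (P α n (P α m (om α))) < x := by
    rw [hx]
    exact val_strict' hq1 hr1 (n := 0) (by rw [P_eq]; rfl)
  have lim : Tendsto (fun m : ℕ => (1 / (r - 1)) * (1 / r) ^ m) atTop (𝓝 ((1 / (r - 1)) * 0)) :=
    (tendsto_pow_atTop_nhds_zero_of_lt_one (by positivity)
      (by rw [div_lt_one hr0]; exact hr)).const_mul _
  rw [mul_zero] at lim
  obtain ⟨L₁, hL₁⟩ := eventually_atTop.1
    (lim.eventually (gt_mem_nhds (show (0 : ℝ) < x - val r (P α n (P α m (om α))) by linarith)))
  obtain ⟨L, hL, hgL⟩ := hα.good_large (max (max L₀ 1) L₁)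
  have hLa : L₀ ≤ L := ((le_max_left _ _).trans (le_max_left _ _)).trans hL
  have hLb : 1 ≤ L := ((le_max_right _ _).trans (le_max_left _ _)).trans hL
  have hLc : L₁ ≤ L := (le_max_right _ _).trans hL
  -- the expansion
  obtain ⟨d, hd⟩ : ∃ d, d = P α n (P α m (P α L (om α))) := ⟨_, rfl⟩
  have hdE : d = cons true (pl α n (pl α m (pl α L (co α)))) := by
    rw [hd, om, P_cons, P_cons, P_cons]
  have hA : ∀ k, sh k (co (pl α n (pl α m (pl α L (co α))))) = α ∨
      LexLt (sh k (co (pl α n (pl α m (pl α L (co α)))))) α := by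
    refine hα.plA hg.1 (hα.plA hgm.1 (hα.plA hgL.1 fun k => ?_))
    rw [co_co]
    rcases Nat.eq_zero_or_pos k with hk | hk
    · left; subst hk; exact sh_zero
    · exact Or.inr (hα.lt k hk)
  have hB : ∀ k, LexLt (sh k (pl α n (pl α m (pl α L (co α))))) α := by
    refine hα.plB hg hn (fun i hi1 hi2 => hm₀ m hmm _ i hi1 hi2)
      (hα.plB hgm hm1 (fun i hi1 hi2 => hL₀ L hLa _ i hi1 hi2)
        (hα.plB hgL hLb (fun i hi1 _ => hα.gt i hi1) (fun k => hα.co_lt k)))
  have hq_gt : x < val q d := by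
    have e1 : val q (P α n (P α m (P α L (om α)))) - val q (P α n (P α m (om α)))
        = (val q (P α m (P α L (om α))) - val q (P α m (om α))) / q ^ (n + 1) :=
      val_pre_sub hq1 (om α) _ _ (n + 1)
    have e2 : val q (P α m (P α L (om α))) - val q (P α m (om α))
        = (val q (P α L (om α)) - val q (om α)) / q ^ (m + 1) :=
      val_pre_sub hq1 (om α) _ _ (m + 1)
    have e3 : val q (P α L (om α)) - val q (P α L zo)
        = (val q (om α) - val q zo) / q ^ (L + 1) := val_pre_sub hq1 (om α) _ _ (L + 1)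
    have e0 : val q (om α) = val q zo := by rw [val_zo hq1, val_om hq1 hval]
    have e4 := D_eq hq1 hval hgL.1
    rw [e0, sub_self, zero_div] at e3
    obtain ⟨v, hv, hv1⟩ := hα.exists_true (L + 1)
    have e5 : 0 < val q (sh (L + 1) α) / q ^ (L + 2) := by
      refine div_pos (val_pos hq1 (n := v - (L + 1)) ?_) (by positivity)
      show α (L + 1 + (v - (L + 1))) = true
      rw [show L + 1 + (v - (L + 1)) = v by omega, hv1]
    have e6 : 0 < val q (P α L (om α)) - val q (om α) := by rw [e0]; linarith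
    have e7 : 0 < (val q (P α L (om α)) - val q (om α)) / q ^ (m + 1) / q ^ (n + 1) := by
      positivity
    rw [← e2, ← e1, ← hd, ← hx] at e7
    linarith
  have hr_lt : val r d < x := by
    have e1 : val r (P α n (P α m (P α L (om α)))) - val r (P α n (P α m (om α)))
        = (val r (P α m (P α L (om α))) - val r (P α m (om α))) / r ^ (n + 1) :=
      val_pre_sub hr (om α) _ _ (n + 1)
    have e2 : val r (P α m (P α L (om α))) - val r (P α m (om α))
        = (val r (P α L (om α)) - val r (om α)) / r ^ (m + 1) :=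
      val_pre_sub hr (om α) _ _ (m + 1)
    have e3 := val_split hr (d := P α L (om α)) (e := om α) (n := L + 1) (fun i hi => pre_lt hi)
    have e4 : val r (P α L (om α)) - val r (om α) ≤ (1 / (r - 1)) * (1 / r) ^ (L + 1) := by
      rw [e3, one_div_pow, ← div_eq_mul_one_div]
      refine div_le_div_of_nonneg_right ?_ (by positivity)
      have := val_le hr (sh (L + 1) (P α L (om α)))
      have := val_nonneg hr (sh (L + 1) (om α))
      linarith
    have e5 := hL₁ (L + 1) (by omega)
    have e6 : (1 / (r - 1)) * (1 / r) ^ (L + 1) / r ^ (m + 1) / r ^ (n + 1)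
        ≤ (1 / (r - 1)) * (1 / r) ^ (L + 1) := by
      have hr1' : 0 < r - 1 := by linarith
      refine (div_le_self (by positivity) (one_le_pow₀ hr.le)).trans
        (div_le_self (by positivity) (one_le_pow₀ hr.le))
    have e7 : (val r (P α L (om α)) - val r (om α)) / r ^ (m + 1) / r ^ (n + 1)
        ≤ (1 / (r - 1)) * (1 / r) ^ (L + 1) / r ^ (m + 1) / r ^ (n + 1) :=
      div_le_div_of_nonneg_right (div_le_div_of_nonneg_right e4 (by positivity)) (by positivity)
    rw [← e2, ← e1, ← hd] at e7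
    linarith
  have hcont : ContinuousOn (fun p => val p d) (Icc q r) :=
    (val_continuousOn _).mono (fun y hy => lt_of_lt_of_le hq1 hy.1)
  obtain ⟨p, hp, hpx⟩ := intermediate_value_Ioo' hr1.le hcont ⟨hr_lt, hq_gt⟩
  have hpx' : val p d = x := hpx
  have hp1 : 1 < p := hq1.trans hp.1
  have hpα : val p α < 1 := by rw [← hval]; exact val_strict' hq1 hp.1 hα.zero
  refine ⟨p, ⟨hp.1, hp.2.trans hr2⟩, hp1, ?_, d, hpx', ?_⟩
  · refine le_min (by linarith [hp.2]) ?_
    have : 1 ≤ 1 / x := by rw [le_div_iff₀ hx0]; linarith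
    linarith [hp.2]
  · intro e he
    have he' : val p e = x := he
    refine unique_of_tails hp1 ?_ ?_ e (by rw [he', hpx'])
    · refine tail_lt_one hp1 hpα fun k _ => Or.inr ?_
      have : sh (k + 1) d = sh k (pl α n (pl α m (pl α L (co α)))) := by
        rw [hdE, Nat.add_comm k 1, ← sh_sh, sh_one_cons]
      rw [this]; exact hB k
    · have h1 := tail_lt_one (d := co d) hp1 hpα fun k _ => by
        have : sh (k + 1) (co d) = sh k (co (pl α n (pl α m (pl α L (co α))))) := by
          rw [← co_sh, ← co_sh, hdE, Nat.add_comm k 1, ← sh_sh, sh_one_cons]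
        rw [this]; exact hA k
      exact fun k hk => h1 k (by simp [co, hk])

end Helper99.DVK
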